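import Pool.Agent.X182.CD.Bound
import Pool.Agent.Results.MP_8c175f_gt.LargeWeakLindelofNumber

/-!
# A non-Lindelöf `T₁` space with a discretely Lindelöf co-diagonal

In ZFC there is a `T₁` space `X` which is not Lindelöf, although its co-diagonal
`{(x, y) ∈ X × X : x ≠ y}` is discretely Lindelöf. The Lindelöf number of `X` can be made larger
than any given cardinal.
-/

set_option autoImplicit false

open Set Topology Cardinal Filter

namespace Pool.Agent.Results.MP_7165d8_gt.CodiagonalNotLindelof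

open Pool.Agent.H960R3.DL Pool.Agent.X182.CD
open Pool.Agent.Results.MP_8c175f_gt.LargeWeakLindelofNumber (exists_L')

variable {L : ℕ → Type} [∀ n, LinearOrder (L n)]
variable {δ : Ordinal.{0}} {G : Ordinal.{0} → ∀ n, L n}

/-- The closed pieces of the co-diagonal are Lindelöf. -/
theorem isLindelof_piece (hG : ∀ ξ < δ, ∀ η < ξ, ∀ᶠ n in atTop, G η n < G ξ n)
    {ξ : Ordinal.{0}} (hξ : ξ < δ) :
    IsLindelof {z : {z : Qt δ G × Qt δ G // z.1 ≠ z.2} | Lo G ξ z.1.1.1 ∧ Lo G ξ z.1.2.1} := by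
  refine isLindelof_of_countable_subcover ?_
  intro ι U hUo hUc
  have h1 : ∀ i, ∃ O : Set (Qt δ G × Qt δ G), IsOpen O ∧ Subtype.val ⁻¹' O = U i := fun i =>
    isOpen_induced_iff.1 (hUo i)
  choose O hO hOU using h1
  obtain ⟨V, hV1, hV2, hV3⟩ := cov_prod hG (range O)
    (by rintro _ ⟨i, rfl⟩; exact hO i) ξ hξ ξ hξ (by
      rintro ⟨p, q⟩ ⟨hp, hq, hpq⟩
      obtain ⟨i, hi⟩ := mem_iUnion.1 (hUc (show (⟨(p, q), hpq⟩ :
        {z : Qt δ G × Qt δ G // z.1 ≠ z.2}) ∈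
        {z : {z : Qt δ G × Qt δ G // z.1 ≠ z.2} | Lo G ξ z.1.1.1 ∧ Lo G ξ z.1.2.1} from
        ⟨hp, hq⟩))
      rw [← hOU i] at hi
      exact ⟨O i, ⟨i, rfl⟩, hi⟩)
  have hV4 : ∀ v : V, ∃ i, O i = v.1 := fun v => hV1 v.2
  choose c hc using hV4
  have := hV2.to_subtype
  refine ⟨range c, countable_range c, fun p hp => ?_⟩
  obtain ⟨v, hv, hpv⟩ := hV3 (show p.1 ∈ RR δ G ξ ξ from ⟨hp.1, hp.2, p.2⟩)
  refine mem_iUnion₂.2 ⟨c ⟨v, hv⟩, ⟨_, rfl⟩, ?_⟩
  rw [← hOU, mem_preimage, hc ⟨v, hv⟩]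
  exact hpv

theorem isClosed_piece {ξ : Ordinal.{0}} (hξ : ξ < δ) :
    IsClosed {z : {z : Qt δ G × Qt δ G // z.1 ≠ z.2} | Lo G ξ z.1.1.1 ∧ Lo G ξ z.1.2.1} := by
  have h1 : Continuous fun z : {z : Qt δ G × Qt δ G // z.1 ≠ z.2} => z.1.1 := by fun_prop
  have h2 : Continuous fun z : {z : Qt δ G × Qt δ G // z.1 ≠ z.2} => z.1.2 := by fun_prop
  exact ((Pool.Agent.X182.CD.isClosed_Lo (G := G) hξ).preimage h1).inter
    ((Pool.Agent.X182.CD.isClosed_Lo (G := G) hξ).preimage h2)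

/-- For every cardinal `μ` there is a `T₁` space `X` such that the co-diagonal
`{(x, y) : x ≠ y}` of `X`, with the subspace topology of the product `X × X`, is discretely
Lindelöf (the closure in the co-diagonal of every discrete subspace of the co-diagonal is
Lindelöf), but `X` is not Lindelöf, and in fact `X` has an open cover without a subcover of
cardinality at most `μ`. -/
theorem result (μ : Cardinal.{0}) :
    ∃ (X : Type) (_ : TopologicalSpace X), T1Space X ∧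
      (∀ D : Set {z : X × X // z.1 ≠ z.2}, DiscreteTopology D → LindelofSpace (closure D)) ∧
      ¬ LindelofSpace X ∧
      ∃ 𝒰 : Set (Set X), (∀ U ∈ 𝒰, IsOpen U) ∧ ⋃₀ 𝒰 = Set.univ ∧
        ∀ 𝒱 ⊆ 𝒰, #𝒱 ≤ μ → ⋃₀ 𝒱 ≠ Set.univ := by
  classical
  obtain ⟨L, i1, i2, hL, hLμ⟩ := exists_L' μ
  obtain ⟨δ, G, hG, hU⟩ := exists_G hL
  -- small families of the cover do not cover
  let U : (Σ n, L n) → Set (Qt δ G) := fun a => {p | p.1 a.1 < (a.2 : WithTop (L a.1))}
  have hUo : ∀ a, IsOpen (U a) := fun a => Pool.Agent.X182.CD.isOpen_U a.1 a.2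
  have hUc : ⋃₀ (range U) = Set.univ := by
    refine eq_univ_of_forall fun p => ?_
    obtain ⟨ξ, hξ, hlo⟩ := p.2
    obtain ⟨n, hn⟩ := hlo.exists
    obtain ⟨b, hb⟩ := hL n {G ξ n} (Or.inl (by
      rw [mk_singleton]
      exact one_lt_aleph0.le.trans aleph0_le_continuum))
    refine ⟨U ⟨n, b⟩, ⟨_, rfl⟩, ?_⟩
    exact hn.trans_lt (WithTop.coe_lt_coe.2 (hb _ rfl))
  have hnot : ∀ C : Set (Σ n, L n), (#C ≤ μ ∨ #C ≤ 𝔠) → ⋃ a ∈ C, U a ≠ Set.univ := by
    intro C hC he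
    have h1 : ∀ n, ∃ b : L n, ∀ a : L n, (⟨n, a⟩ : Σ n, L n) ∈ C → a < b := by
      intro n
      have hcount : #((Sigma.mk n) ⁻¹' C : Set (L n)) ≤ #C :=
        mk_preimage_of_injective _ _ sigma_mk_injective
      rcases hC with hC | hC
      · exact hLμ n _ (hcount.trans hC)
      · exact hL n _ (Or.inl (hcount.trans hC))
    choose h hh using h1
    obtain ⟨ξ, hξ, hf⟩ := hU h
    let A : Set ℕ := {n | h n ≤ G ξ n}
    have hA : A.Infinite := Nat.frequently_atTop_iff_infinite.1 hf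
    let x : Qt δ G := ⟨xA G ξ A, ξ, hξ, lo_xA G ξ hA⟩
    have hx : x ∈ ⋃ a ∈ C, U a := by
      rw [he]
      exact mem_univ x
    obtain ⟨v, hv, hqv⟩ := mem_iUnion₂.1 hx
    have h3 : x.1 v.1 < (v.2 : WithTop (L v.1)) := hqv
    have h4 : v.2 < h v.1 := hh _ _ hv
    have h5 : (h v.1 : WithTop (L v.1)) ≤ x.1 v.1 := by
      change (h v.1 : WithTop (L v.1)) ≤ xA G ξ A v.1
      by_cases hn : v.1 ∈ A
      · simp only [xA, hn, if_true]
        exact WithTop.coe_le_coe.2 hn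
      · simp [xA, hn]
    exact absurd (h5.trans_lt (h3.trans (WithTop.coe_lt_coe.2 h4))) (lt_irrefl _)
  refine ⟨Qt δ G, inferInstance, inferInstance, ?_, ?_, range U, ?_, hUc, ?_⟩
  · intro D hD
    have hdisc : Disc (Subtype.val '' D : Set (Qt δ G × Qt δ G)) := by
      rintro _ ⟨d, hd, rfl⟩
      have h2 : IsOpen ({⟨d, hd⟩} : Set D) := isOpen_discrete _
      obtain ⟨W, hW1, hW2⟩ := isOpen_induced_iff.1 h2
      obtain ⟨O, hO1, hO2⟩ := isOpen_induced_iff.1 hW1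
      have h3 : d ∈ W := by
        have : (⟨d, hd⟩ : D) ∈ (Subtype.val ⁻¹' W : Set D) := by rw [hW2]; rfl
        exact this
      refine ⟨O, hO1, ?_, ?_⟩
      · rw [← hO2] at h3
        exact h3
      · rintro _ ⟨d', hd', rfl⟩ hd'O
        have h4 : d' ∈ W := by
          rw [← hO2]
          exact hd'O
        have h5 : (⟨d', hd'⟩ : D) ∈ ({⟨d, hd⟩} : Set D) := by
          rw [← hW2]
          exact h4
        exact congrArg (fun z : D => z.1.1) h5
    obtain ⟨ξ, hξ, hDξ⟩ := bounded hL hG hU _ hdisc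
    rw [← isLindelof_iff_lindelofSpace]
    exact (isLindelof_piece hG hξ).of_isClosed_subset isClosed_closure
      (closure_minimal (fun d hd => hDξ d.1 ⟨d, hd, rfl⟩) (isClosed_piece hξ))
  · intro hLin
    have h1 : IsLindelof (Set.univ : Set (Qt δ G)) := isLindelof_univ
    obtain ⟨C, hC, hC'⟩ := h1.elim_countable_subcover U hUo (by
      rw [← sUnion_range, hUc])
    exact hnot C (Or.inr (hC.le_aleph0.trans aleph0_le_continuum))
      (eq_univ_of_univ_subset hC')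
  · rintro _ ⟨a, rfl⟩
    exact hUo a
  · intro V hV hVc he
    have hV4 : ∀ v : V, ∃ i, U i = v.1 := fun v => hV v.2
    choose c hc using hV4
    refine hnot (range c) (Or.inl (mk_range_le.trans hVc)) (eq_univ_of_forall fun p => ?_)
    have hp : p ∈ ⋃₀ V := by
      rw [he]
      exact mem_univ p
    obtain ⟨v, hv, hpv⟩ := hp
    refine mem_iUnion₂.2 ⟨c ⟨v, hv⟩, ⟨_, rfl⟩, ?_⟩
    rw [hc ⟨v, hv⟩]
    exact hpv

end Pool.Agent.Results.MP_7165d8_gt.CodiagonalNotLindelof
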